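import Pool.Agent.Helper52.PCap.Calc

/-!
Planar p-capacity (MP_576c25_an): PACKET A7. The contact set is open.
-/

set_option autoImplicit false

open MeasureTheory Set Filter Topology
open scoped ContDiff Real

noncomputable section

namespace Pool.Agent.Helper52.PCap

open Pool.Agent.Helper25.PCap

theorem HasD.shift {f : ℝ × ℝ → ℝ} {z : ℝ × ℝ} {p q k : ℝ} (h : HasD f (z.1 - k, z.2) p q) :
    HasD (fun w : ℝ × ℝ => f (w.1 - k, w.2)) z p q := by
  have h1 : HasFDerivAt (fun w : ℝ × ℝ => w.1 - k) (ContinuousLinearMap.fst ℝ ℝ ℝ) z :=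
    hasFDerivAt_fst.sub_const k
  have h2 : HasFDerivAt (fun w : ℝ × ℝ => w.2) (ContinuousLinearMap.snd ℝ ℝ ℝ) z :=
    hasFDerivAt_snd
  have h3 : HasFDerivAt (fun w : ℝ × ℝ => (w.1 - k, w.2)) _ z := h1.prodMk h2
  have := HasFDerivAt.comp (f := fun w : ℝ × ℝ => (w.1 - k, w.2)) z (g := f) h h3
  exact HasFDerivAt.congr_fderiv this (by ext <;> simp)

/-- derivative along a vertical line -/
theorem HasD.line {f : ℝ × ℝ → ℝ} {τ c σ s p q : ℝ} (h : HasD f (τ, c + σ * s) p q) :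
    HasDerivAt (fun x => f (τ, c + σ * x)) (σ * q) s := by
  have h2 : HasDerivAt (fun x : ℝ => c + σ * x) σ s := by
    simpa using ((hasDerivAt_id s).const_mul σ).const_add c
  have h3 : HasDerivAt (fun x : ℝ => (τ, c + σ * x)) (0, σ) s := (hasDerivAt_const s τ).prodMk h2
  have := HasFDerivAt.comp_hasDerivAt s (l := f) (f := fun x : ℝ => (τ, c + σ * x)) h h3
  exact HasDerivAt.congr_deriv this (by simp [mul_comm])

variable {κ : ℝ}

/-- the coefficient `e^{ετ}/B` -/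
def aE (κ C0 : ℝ) (τ : ℝ) : ℝ := Real.exp ((1 - κ) * τ) / BB κ C0

theorem BB_pos {C0 : ℝ} (hκ1 : κ < 1) (hC : 0 < C0) : 0 < BB κ C0 := by
  unfold BB
  have : 0 < 1 - κ := by linarith
  positivity

theorem aE_ne {C0 : ℝ} (hκ1 : κ < 1) (hC : 0 < C0) (τ : ℝ) : aE κ C0 τ ≠ 0 :=
  div_ne_zero (Real.exp_pos _).ne' (BB_pos hκ1 hC).ne'

theorem aE_smooth (κ C0 : ℝ) : ContDiff ℝ ∞ (aE κ C0) := by
  unfold aE
  exact ((contDiff_const.mul contDiff_id).exp).div_const _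

theorem sys_eqs {C0 : ℝ} (hκ1 : κ < 1) (hC : 0 < C0) {u om : ℝ × ℝ → ℝ}
    {N : Set (ℝ × ℝ)} (hs : Sys κ C0 u om N) {z : ℝ × ℝ} (hz : z ∈ N) :
    D1 u z = aE κ C0 z.1 * D2 om z + aE κ C0 z.1 ∧
      D1 om z = -(κ / aE κ C0 z.1) * D2 u z := by
  obtain ⟨-, -, h1, h2⟩ := hs
  have e1 := h1 z hz
  have e2 := h2 z hz
  have hB := (BB_pos hκ1 hC).ne'
  have hx : Real.exp (-(1 - κ) * z.1) = (Real.exp ((1 - κ) * z.1))⁻¹ := by
    rw [← Real.exp_neg]
    congr 1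
    ring
  have hE := (Real.exp_pos ((1 - κ) * z.1)).ne'
  rw [hx] at e1 e2
  unfold aE
  constructor
  · rw [e1]
    field_simp
    ring
  · rw [e2]
    field_simp

/-- the scaled slit function -/
def Uf (S : SFull κ) (α : ℝ) (z : ℝ × ℝ) : ℝ := α * S.u (shf κ α z.1, z.2)

/-- the scaled slit function -/
def Wf (S : SFull κ) (α : ℝ) (z : ℝ × ℝ) : ℝ := S.om (shf κ α z.1, z.2)

theorem sysQ (h0 : GA0) (hκ : 0 < κ) (hκ1 : κ < 1) (S : SFull κ) {α : ℝ} (hα : 0 < α) :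
    Sys κ S.C0 (Uf S α) (Wf S α) {z | 0 < z.2 ∧ z.2 < π} := by
  have hopen : IsOpen {z : ℝ × ℝ | 0 < z.2 ∧ z.2 < π} :=
    (isOpen_lt continuous_const continuous_snd).inter (isOpen_lt continuous_snd continuous_const)
  exact (h0 κ hκ hκ1).2.2.1 S.C0 α S.u S.om _ hα hopen S.sysQ

theorem sysN (h0 : GA0) (hκ : 0 < κ) (hκ1 : κ < 1) (S : SFull κ) {α : ℝ} (hα : 0 < α) :
    Sys κ S.C0 (Uf S α) (Wf S α) {z | shf κ α z.1 < 0} := by
  have hopen : IsOpen {z : ℝ × ℝ | z.1 < 0} := isOpen_lt continuous_fst continuous_const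
  exact (h0 κ hκ hκ1).2.2.1 S.C0 α S.u S.om _ hα hopen S.sysN

theorem Uf_cont (S : SFull κ) (α : ℝ) : Continuous (Uf S α) := by
  unfold Uf shf
  exact continuous_const.mul (S.cont.comp (by fun_prop))

theorem uniq (h1 : GA1) (hκ : 0 < κ) (hκ1 : κ < 1) (S : SFull κ) {t ϑ ϑ' : ℝ} (a1 : 0 ≤ ϑ)
    (a2 : ϑ ≤ π / 2) (b1 : 0 ≤ ϑ') (b2 : ϑ' ≤ π / 2) (h : S.u (t, ϑ) = S.u (t, ϑ')) : ϑ = ϑ' := by
  rcases lt_trichotomy ϑ ϑ' with h2 | h2 | h2
  · have := (h1 κ hκ hκ1 S).1 t ϑ ϑ' a1 h2 b2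
    linarith
  · exact h2
  · have := (h1 κ hκ hκ1 S).1 t ϑ' ϑ b1 h2 a2
    linarith

theorem anti (h1 : GA1) (hκ : 0 < κ) (hκ1 : κ < 1) (S : SFull κ) {t ϑ ϑ' : ℝ} (a1 : 0 ≤ ϑ)
    (a2 : ϑ ≤ ϑ') (b2 : ϑ' ≤ π / 2) : S.u (t, ϑ') ≤ S.u (t, ϑ) := by
  rcases a2.lt_or_eq with h2 | h2
  · exact ((h1 κ hκ hκ1 S).1 t ϑ ϑ' a1 h2 b2).le
  · rw [h2]

section D
variable {C0 : ℝ} (D : TData κ C0) {z₀ : ℝ × ℝ} {α : ℝ}

theorem TD_lt (hα1 : α ≤ 1) (hz : z₀.1 ≤ D.T z₀.2) (hu : D.u z₀ < α) : z₀.1 < D.T z₀.2 := by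
  rcases hz.lt_or_eq with h | h
  · exact h
  · have : D.u z₀ = 1 := by
      have := D.u1 z₀.2
      rwa [← h] at this
    linarith

theorem TD_ev (hα1 : α ≤ 1) (hz : z₀.1 ≤ D.T z₀.2) (hu : D.u z₀ < α) :
    ∀ᶠ z in 𝓝 z₀, z ∈ D.V ∧ z.1 < D.T z.2 ∧ D.u z < α := by
  have hlt := TD_lt D hα1 hz hu
  have h1 : ∀ᶠ z in 𝓝 z₀, z ∈ D.V := D.Vopen.mem_nhds (D.VT z₀ hz)
  have h2 : ∀ᶠ z in 𝓝 z₀, z.1 < D.T z.2 :=
    (isOpen_lt continuous_fst (D.Tcont.comp continuous_snd)).mem_nhds hlt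
  have h3 : ContinuousAt D.u z₀ :=
    (D.sys.1.contDiffAt (D.Vopen.mem_nhds (D.VT z₀ hz))).continuousAt
  exact h1.and (h2.and (h3.eventually_lt_const hu))

end D

/-- the interior case -/
theorem case1 (h0 : GA0) (h1 : GA1) (hc : GChart) (hκ : 0 < κ) (hκ1 : κ < 1) (S : SFull κ)
    (D : TData κ S.C0) {α : ℝ} (hα : 0 < α) (hα1 : α ≤ 1) (hP : PAw S D α) {z₀ : ℝ × ℝ}
    (hz : z₀.1 ≤ D.T z₀.2) (hu : D.u z₀ < α) {ϑ₀ : ℝ} (hϑ0 : 0 < ϑ₀) (hϑ : ϑ₀ < π / 2)
    (hue : S.u (shf κ α z₀.1, ϑ₀) = D.u z₀ / α) (home : D.om z₀ = S.om (shf κ α z₀.1, ϑ₀)) :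
    ∀ᶠ z in 𝓝 z₀, ¬ InS S (shf κ α z.1) (D.u z / α) (D.om z) := by
  obtain ⟨N, hN, hNo, hzN⟩ := eventually_nhds_iff.1 (TD_ev D hα1 hz hu)
  set M : Set (ℝ × ℝ) := {z | 0 < z.2 ∧ z.2 < π / 2} with hM
  have hMo : IsOpen M :=
    (isOpen_lt continuous_const continuous_snd).inter (isOpen_lt continuous_snd continuous_const)
  have hpi := Real.pi_pos
  have hMsub : M ⊆ {z : ℝ × ℝ | 0 < z.2 ∧ z.2 < π} := fun z hz => ⟨hz.1, by linarith [hz.2]⟩
  have hQ := sysQ h0 hκ hκ1 S hα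
  have hNV : N ⊆ D.V := fun z hz => (hN z hz).1
  have key := hc κ (aE κ S.C0) (aE κ S.C0) (fun _ => 0) D.u D.om (Uf S α) (Wf S α) N M
    z₀.1 z₀.2 ϑ₀ hκ (aE_smooth _ _) (aE_smooth _ _) contDiff_const (aE_ne hκ1 S.C0pos) hNo hMo
    hzN ⟨hϑ0, hϑ⟩ (D.sys.1.mono hNV) (D.sys.2.1.mono hNV) (hQ.1.mono hMsub) (hQ.2.1.mono hMsub)
    (fun z hz => (sys_eqs hκ1 S.C0pos D.sys (hNV hz)).1)
    (fun z hz => by rw [(sys_eqs hκ1 S.C0pos D.sys (hNV hz)).2, add_zero])
    (fun z hz => (sys_eqs hκ1 S.C0pos hQ (hMsub hz)).1)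
    (fun z hz => by rw [(sys_eqs hκ1 S.C0pos hQ (hMsub hz)).2, add_zero])
    (by
      unfold Uf
      simp only
      rw [hue]
      field_simp)
    (by
      unfold Wf
      exact home)
    (by
      have hSC : (shf κ α z₀.1, ϑ₀) ∈ SC := Or.inr (by
        have : 0 < Real.sin ϑ₀ := Real.sin_pos_of_pos_of_lt_pi hϑ0 (by linarith)
        exact this.ne')
      have hopen : IsOpen SC := by
        have : SC = {z : ℝ × ℝ | z.1 < 0} ∪ {z : ℝ × ℝ | Real.sin z.2 ≠ 0} := rfl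
        rw [this]
        exact (isOpen_lt continuous_fst continuous_const).union
          (isOpen_ne_fun (Real.continuous_sin.comp continuous_snd) continuous_const)
      have hd : DifferentiableAt ℝ S.u (shf κ α z₀.1, ϑ₀) :=
        (S.smooth.contDiffAt (hopen.mem_nhds hSC)).differentiableAt (by simp)
      have h2 : HasD (fun w : ℝ × ℝ => S.u (shf κ α w.1, w.2)) (z₀.1, ϑ₀)
          (D1 S.u (shf κ α z₀.1, ϑ₀)) (D2 S.u (shf κ α z₀.1, ϑ₀)) :=
        HasD.shift (f := S.u) (z := (z₀.1, ϑ₀)) (k := Real.log α / (1 - κ)) (hasD_of_diff hd)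
      have h3 := (HasD.const (z := (z₀.1, ϑ₀)) α).mul h2
      have h4 : D2 (Uf S α) (z₀.1, ϑ₀) = α * D2 S.u (shf κ α z₀.1, ϑ₀) := by
        rw [show Uf S α = fun w : ℝ × ℝ => α * S.u (shf κ α w.1, w.2) from rfl, h3.d2]
        ring
      rw [h4]
      have := S.uneg (shf κ α z₀.1) ϑ₀ hϑ0 hϑ
      exact (mul_neg_of_pos_of_neg hα this).ne)
    (by
      intro τ θ ϑ hτN hτM he
      obtain ⟨-, hT, hual⟩ := hN _ hτN
      obtain ⟨ϑ', c1, c2, c3, c4⟩ := hP (τ, θ) hT.le hual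
      have e : S.u (shf κ α τ, ϑ) = S.u (shf κ α τ, ϑ') := by
        rw [c3, ← he]
        unfold Uf
        field_simp
      have := uniq h1 hκ hκ1 S hτM.1.le hτM.2.le c1 c2 e
      rw [← this] at c4
      exact (le_abs_self _).trans c4)
  filter_upwards [key] with z hz
  rintro ⟨ϑ'', c1, c2, c3, c4⟩
  obtain ⟨ϑ, d1, d2, d3⟩ := hz
  have e : S.u (shf κ α z.1, ϑ'') = S.u (shf κ α z.1, ϑ) := by
    rw [c3, ← d2]
    unfold Uf
    field_simp
  have := uniq h1 hκ hκ1 S c1.le c2.le d1.1.le d1.2.le e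
  rw [this] at c4
  have d3' : S.om (shf κ α z.1, ϑ) = D.om z := d3
  rw [d3'] at c4
  exact absurd (le_abs_self (D.om z)) (not_le.2 c4)

/-- the equations with the roles of the functions exchanged -/
theorem swap_eqs {C0 σ : ℝ} (hκ : 0 < κ) (hκ1 : κ < 1) (hC : 0 < C0) {u om : ℝ × ℝ → ℝ}
    {N : Set (ℝ × ℝ)} (hs : Sys κ C0 u om N) (hN : IsOpen N) {z : ℝ × ℝ} (hz : z ∈ N)
    (hσ : σ * σ = 1) :
    D1 om z = -(σ * κ / aE κ C0 z.1) * D2 (fun w => σ * u w) z + 0 ∧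
      D1 (fun w => σ * u w) z = -(κ / (-(σ * κ / aE κ C0 z.1))) * D2 om z + σ * aE κ C0 z.1 := by
  obtain ⟨e1, e2⟩ := sys_eqs hκ1 hC hs hz
  have hd : DifferentiableAt ℝ u z :=
    (hs.1.contDiffAt (hN.mem_nhds hz)).differentiableAt (by simp)
  have h3 := (HasD.const (z := z) σ).mul (hasD_of_diff hd)
  have hσ0 : σ ≠ 0 := by
    rintro rfl
    norm_num at hσ
  have ha := aE_ne (κ := κ) hκ1 hC z.1
  have hκ0 := hκ.ne'
  rw [h3.d1, h3.d2, e1, e2]
  constructor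
  · have : -(σ * κ / aE κ C0 z.1) * (0 * u z + σ * D2 u z) + 0 =
        -(κ / aE κ C0 z.1) * D2 u z * (σ * σ) := by ring
    rw [this, hσ, mul_one]
  · have : -(κ / (-(σ * κ / aE κ C0 z.1))) = σ * aE κ C0 z.1 := by
      field_simp
      linear_combination -hσ
    rw [this]
    ring

/-- the symmetric cases -/
theorem caseS (h1 : GA1) (hc : GChart) (hκ : 0 < κ) (hκ1 : κ < 1) (S : SFull κ)
    (D : TData κ S.C0) {α : ℝ} (hα : 0 < α) (hα1 : α ≤ 1) (hP : PAw S D α) {z₀ : ℝ × ℝ}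
    (hz : z₀.1 ≤ D.T z₀.2) (hu : D.u z₀ < α) {c σ : ℝ} (hσ : σ * σ = 1)
    {O : Set (ℝ × ℝ)} (hO : IsOpen O) (hzO : (z₀.1, c) ∈ O)
    (hS : Sys κ S.C0 (Uf S α) (Wf S α) O)
    (hd : 0 < σ * D2 (Wf S α) (z₀.1, c))
    (hodd : ∀ τ s, (τ, c + σ * s) ∈ O → (τ, c - σ * s) ∈ O →
      Wf S α (τ, c - σ * s) = -Wf S α (τ, c + σ * s))
    (heven : ∀ τ s, Uf S α (τ, c - σ * s) = Uf S α (τ, c + σ * s))
    (hrange : ∀ s, 0 ≤ s → s ≤ π / 2 → 0 ≤ c + σ * s ∧ c + σ * s ≤ π / 2)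
    (hrange' : ∀ ϑ, 0 ≤ ϑ → ϑ ≤ π / 2 → ∃ s, 0 ≤ s ∧ s ≤ π / 2 ∧ ϑ = c + σ * s)
    (hmono : ∀ τ s s', 0 ≤ s → s < s' → s' ≤ π / 2 →
      σ * Uf S α (τ, c + σ * s') < σ * Uf S α (τ, c + σ * s))
    (hue : Uf S α (z₀.1, c) = D.u z₀) (home : D.om z₀ = Wf S α (z₀.1, c)) :
    ∀ᶠ z in 𝓝 z₀, ¬ InS S (shf κ α z.1) (D.u z / α) (D.om z) := by
  have hpi := Real.pi_pos
  have hσ0 : σ ≠ 0 := by
    rintro rfl
    norm_num at hσ
  have hσa : |σ| = 1 := by
    have : |σ| * |σ| = 1 := by rw [← abs_mul, hσ, abs_one]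
    nlinarith [abs_nonneg σ]
  -- the box
  have cD2 : ∀ z ∈ O, ContinuousAt (D2 (Wf S α)) z := fun z hz =>
    (diff_D2 ((hS.2.1.contDiffAt (hO.mem_nhds hz)).of_le
      (WithTop.coe_le_coe.2 (le_top : (2 : ℕ∞) ≤ ⊤)))).continuousAt
  have ev1 : ∀ᶠ z in 𝓝 ((z₀.1, c) : ℝ × ℝ), z ∈ O ∧ 0 < σ * D2 (Wf S α) z :=
    Filter.Eventually.and (hO.mem_nhds hzO)
      ((continuousAt_const.mul (cD2 _ hzO)).eventually_const_lt hd)
  obtain ⟨ε, hε, hball⟩ := Metric.eventually_nhds_iff_ball.1 ev1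
  set r := min ε (π / 2) with hr
  have hr0 : 0 < r := lt_min hε (by linarith)
  have hrpi : r ≤ π / 2 := min_le_right _ _
  set M := Metric.ball ((z₀.1, c) : ℝ × ℝ) r with hM
  have hMmem : ∀ z : ℝ × ℝ, z ∈ M ↔ |z.1 - z₀.1| < r ∧ |z.2 - c| < r := by
    intro z
    rw [hM, Metric.mem_ball, Prod.dist_eq, max_lt_iff, Real.dist_eq, Real.dist_eq]
  have hMO : ∀ z ∈ M, z ∈ O ∧ 0 < σ * D2 (Wf S α) z := fun z hz =>
    hball z (Metric.ball_subset_ball (min_le_left _ _) hz)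
  have hmem : ∀ τ s, |τ - z₀.1| < r → |s| < r → (τ, c + σ * s) ∈ M := by
    intro τ s h2 h3
    rw [hMmem]
    refine ⟨h2, ?_⟩
    simp only [add_sub_cancel_left, abs_mul, hσa, one_mul]
    exact h3
  have hmem' : ∀ τ s, |τ - z₀.1| < r → |s| < r → (τ, c - σ * s) ∈ M := by
    intro τ s h2 h3
    have := hmem τ (-s) h2 (by rwa [abs_neg])
    rwa [mul_neg, ← sub_eq_add_neg] at this
  -- strict monotonicity of `W`
  have hW : ∀ τ, |τ - z₀.1| < r → ∀ s s', 0 ≤ s → s < s' → s' < r →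
      Wf S α (τ, c + σ * s) < Wf S α (τ, c + σ * s') := by
    intro τ hτ s s' hs hss hs'
    have hder : ∀ x ∈ Icc s s', HasDerivAt (fun x => Wf S α (τ, c + σ * x))
        (σ * D2 (Wf S α) (τ, c + σ * x)) x := by
      intro x hx
      have hxr : |x| < r := by
        rw [abs_of_nonneg (hs.trans hx.1)]
        exact lt_of_le_of_lt hx.2 hs'
      have hO' := (hMO _ (hmem τ x hτ hxr)).1
      have : DifferentiableAt ℝ (Wf S α) (τ, c + σ * x) :=
        (hS.2.1.contDiffAt (hO.mem_nhds hO')).differentiableAt (by simp)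
      exact (hasD_of_diff this).line
    have hmon : StrictMonoOn (fun x => Wf S α (τ, c + σ * x)) (Icc s s') := by
      refine strictMonoOn_of_deriv_pos (convex_Icc s s')
        (fun x hx => (hder x hx).continuousAt.continuousWithinAt) ?_
      intro x hx
      rw [interior_Icc] at hx
      have hx' : x ∈ Icc s s' := ⟨hx.1.le, hx.2.le⟩
      rw [(hder x hx').deriv]
      have hxr : |x| < r := by
        rw [abs_of_nonneg (hs.trans hx.1.le)]
        exact hx.2.trans hs'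
      exact (hMO _ (hmem τ x hτ hxr)).2
    exact hmon ⟨le_rfl, hss.le⟩ ⟨hss.le, le_rfl⟩ hss
  -- reduction to `s ≥ 0`
  have hred : ∀ τ ϑ, (τ, ϑ) ∈ M → ∃ s, 0 ≤ s ∧ s < r ∧
      |Wf S α (τ, c + σ * s)| = |Wf S α (τ, ϑ)| ∧ Uf S α (τ, c + σ * s) = Uf S α (τ, ϑ) := by
    intro τ ϑ hτ
    obtain ⟨h2, h3⟩ := (hMmem _).1 hτ
    simp only at h2 h3
    have hϑ : ϑ = c + σ * (σ * (ϑ - c)) := by linear_combination -(ϑ - c) * hσ
    have h4 : |σ * (ϑ - c)| < r := by rwa [abs_mul, hσa, one_mul]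
    rcases le_total 0 (σ * (ϑ - c)) with h5 | h5
    · refine ⟨σ * (ϑ - c), h5, ?_, ?_, ?_⟩
      · rwa [abs_of_nonneg h5] at h4
      · rw [← hϑ]
      · rw [← hϑ]
    · have h6 : |-(σ * (ϑ - c))| < r := by rwa [abs_neg]
      have hϑ' : ϑ = c - σ * (-(σ * (ϑ - c))) := by linear_combination -(ϑ - c) * hσ
      have m1 := (hMO _ (hmem τ _ h2 h6)).1
      have m2 := (hMO _ (hmem' τ _ h2 h6)).1
      refine ⟨-(σ * (ϑ - c)), by linarith, ?_, ?_, ?_⟩
      · rwa [abs_of_nonneg (by linarith)] at h6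
      · have := hodd τ _ m1 m2
        rw [← hϑ'] at this
        rw [this, abs_neg]
      · have := heven τ (-(σ * (ϑ - c)))
        rw [← hϑ'] at this
        exact this.symm
  -- the neighbourhood of `z₀`
  have hr2 : r / 2 ≤ π / 2 := by linarith
  have ev2 : ∀ᶠ z in 𝓝 z₀, |z.1 - z₀.1| < r := by
    have : ContinuousAt (fun z : ℝ × ℝ => |z.1 - z₀.1|) z₀ := by fun_prop
    exact this.eventually_lt_const (by simpa using hr0)
  have cu : ContinuousAt D.u z₀ :=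
    (D.sys.1.contDiffAt (D.Vopen.mem_nhds (D.VT z₀ hz))).continuousAt
  have ev3 : ∀ᶠ z in 𝓝 z₀, σ * Uf S α (z.1, c + σ * (r / 2)) < σ * D.u z := by
    have c1 : ContinuousAt (fun z : ℝ × ℝ => σ * Uf S α (z.1, c + σ * (r / 2))) z₀ :=
      (continuous_const.mul ((Uf_cont S α).comp (by fun_prop))).continuousAt
    refine c1.eventually_lt (continuousAt_const.mul cu) ?_
    have := hmono z₀.1 0 (r / 2) le_rfl (by linarith) hr2
    rw [mul_zero, add_zero, hue] at this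
    exact this
  obtain ⟨N, hN, hNo, hzN⟩ := eventually_nhds_iff.1 ((TD_ev D hα1 hz hu).and (ev2.and ev3))
  have hNV : N ⊆ D.V := fun z hz => (hN z hz).1.1
  have hPN : ∀ z ∈ N, ∃ s', 0 ≤ s' ∧ s' < r ∧ Uf S α (z.1, c + σ * s') = D.u z ∧
      |D.om z| ≤ Wf S α (z.1, c + σ * s') := by
    intro z hzN
    obtain ⟨⟨-, hT, hual⟩, -, hlt⟩ := hN z hzN
    obtain ⟨ϑ', c1, c2, c3, c4⟩ := hP z hT.le hual
    obtain ⟨s', d1, d2, rfl⟩ := hrange' ϑ' c1 c2
    have e : Uf S α (z.1, c + σ * s') = D.u z := by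
      unfold Uf
      simp only
      rw [c3]
      field_simp
    refine ⟨s', d1, ?_, e, c4⟩
    by_contra hcon
    push Not at hcon
    rw [← e] at hlt
    have : r / 2 < s' := by linarith
    exact absurd (hmono z.1 (r / 2) s' (by linarith) this d2) (not_lt.2 hlt.le)
  have hMo : IsOpen M := Metric.isOpen_ball
  have hMsub : M ⊆ O := fun z hz => (hMO z hz).1
  have smoothσ : ∀ (f : ℝ × ℝ → ℝ) (A : Set (ℝ × ℝ)), ContDiffOn ℝ ∞ f A →
      ContDiffOn ℝ ∞ (fun w => σ * f w) A := fun f A hf => contDiffOn_const.mul hf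
  have key := hc κ (fun τ => -(σ * κ / aE κ S.C0 τ)) (fun _ => 0) (fun τ => σ * aE κ S.C0 τ)
    D.om (fun w => σ * D.u w) (Wf S α) (fun w => σ * Uf S α w) N M z₀.1 z₀.2 c hκ
    (contDiff_const.div (aE_smooth _ _) (aE_ne hκ1 S.C0pos)).neg contDiff_const
    (contDiff_const.mul (aE_smooth _ _))
    (fun τ => neg_ne_zero.2 (div_ne_zero (mul_ne_zero hσ0 hκ.ne') (aE_ne hκ1 S.C0pos τ))) hNo hMo
    hzN (by
      rw [hMmem]
      simpa using hr0)
    (D.sys.2.1.mono hNV) (smoothσ _ _ (D.sys.1.mono hNV)) (hS.2.1.mono hMsub)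
    (smoothσ _ _ (hS.1.mono hMsub))
    (fun z hz => (swap_eqs hκ hκ1 S.C0pos D.sys D.Vopen (hNV hz) hσ).1)
    (fun z hz => (swap_eqs hκ hκ1 S.C0pos D.sys D.Vopen (hNV hz) hσ).2)
    (fun z hz => (swap_eqs hκ hκ1 S.C0pos hS hO (hMsub hz) hσ).1)
    (fun z hz => (swap_eqs hκ hκ1 S.C0pos hS hO (hMsub hz) hσ).2)
    home
    (by rw [hue])
    (fun h => by rw [h, mul_zero] at hd; exact lt_irrefl _ hd)
    (by
      intro τ θ ϑ hτN hτM he
      have hτ : |τ - z₀.1| < r := (hN _ hτN).2.1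
      obtain ⟨s', a1, a2, a3, a4⟩ := hPN _ hτN
      obtain ⟨s, b1, b2, b3, b4⟩ := hred τ ϑ hτM
      simp only at a3 a4
      rw [he] at b3
      have hss : s ≤ s' := by
        by_contra hcon
        push Not at hcon
        have h5 := hW τ hτ s' s a1 hcon b2
        have h6 := le_abs_self (Wf S α (τ, c + σ * s))
        linarith
      rw [← a3, ← b4]
      rcases hss.lt_or_eq with h7 | h7
      · exact (hmono τ s s' b1 h7 (a2.le.trans hrpi)).le
      · rw [h7])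
  have ev7 : ∀ᶠ z in 𝓝 z₀, z ∈ N := hNo.mem_nhds hzN
  filter_upwards [key] with z hz
  rintro ⟨ϑ'', c1, c2, c3, c4⟩
  obtain ⟨ϑ, d1, d2, d3⟩ := hz
  have d3' : Uf S α (z.1, ϑ) = D.u z := mul_left_cancel₀ hσ0 d3
  obtain ⟨s, b1, b2, b3, b4⟩ := hred z.1 ϑ d1
  have hs := hrange s b1 (b2.le.trans hrpi)
  have e : S.u (shf κ α z.1, ϑ'') = S.u (shf κ α z.1, c + σ * s) := by
    rw [c3, ← d3', ← b4]
    unfold Uf
    field_simp
  have := uniq h1 hκ hκ1 S c1.le c2.le hs.1 hs.2 e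
  rw [this] at c4
  have c4' : |D.om z| < Wf S α (z.1, c + σ * s) := c4
  rw [d2] at b3
  have h6 := le_abs_self (Wf S α (z.1, c + σ * s))
  linarith

theorem pkA7 (h0 : GA0) (h1 : GA1) (hc : GChart) : GA7 := by
  intro κ hκ hκ1 S D α hα hα1 hP z₀ hz hu hnot
  have hpi := Real.pi_pos
  have hev := TD_ev D hα1 hz hu
  suffices hmain : ∀ᶠ z in 𝓝 z₀, ¬ InS S (shf κ α z.1) (D.u z / α) (D.om z) by
    filter_upwards [hev, hmain] with z h2 h3
    exact ⟨h2.2.1.le, h2.2.2, h3⟩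
  obtain ⟨ϑ₀, a1, a2, a3, a4⟩ := hP z₀ hz hu
  have hU : Uf S α (z₀.1, ϑ₀) = D.u z₀ := by
    unfold Uf
    simp only
    rw [a3]
    field_simp
  rcases a1.lt_or_eq with h3 | h3
  · rcases a2.lt_or_eq with h4 | h4
    · -- interior case
      have h5 : |D.om z₀| = S.om (shf κ α z₀.1, ϑ₀) := by
        refine le_antisymm a4 ?_
        by_contra hcon
        push Not at hcon
        exact hnot ⟨ϑ₀, h3, h4, a3, hcon⟩
      rcases le_total 0 (D.om z₀) with h6 | h6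
      · rw [abs_of_nonneg h6] at h5
        exact case1 h0 h1 hc hκ hκ1 S D hα hα1 hP hz hu h3 h4 a3 h5
      · rw [abs_of_nonpos h6] at h5
        obtain ⟨D', e1, e2, e3, -⟩ := (h0 κ hκ hκ1).1 S.C0 D
        have hP' : PAw S D' α := by
          intro z hz1 hz2
          have e2' : D'.u z = D.u (z.1, -z.2) := e2 z.1 z.2
          have e3' : D'.om z = -D.om (z.1, -z.2) := e3 z.1 z.2
          rw [e1] at hz1
          rw [e2'] at hz2
          obtain ⟨ϑ, b1, b2, b3, b4⟩ := hP (z.1, -z.2) hz1 hz2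
          refine ⟨ϑ, b1, b2, ?_, ?_⟩
          · rw [e2']; exact b3
          · rw [e3', abs_neg]; exact b4
        have hu' : D'.u (z₀.1, -z₀.2) = D.u z₀ := by rw [e2, neg_neg]
        have ho' : D'.om (z₀.1, -z₀.2) = -D.om z₀ := by rw [e3, neg_neg]
        have key := case1 h0 h1 hc hκ hκ1 S D' hα hα1 hP' (z₀ := (z₀.1, -z₀.2))
          (by simp only [e1, neg_neg]; exact hz) (by rw [hu']; exact hu) h3 h4
          (by rw [hu']; exact a3) (by rw [ho']; exact h5)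
        have hcont : ContinuousAt (fun z : ℝ × ℝ => (z.1, -z.2)) z₀ := by fun_prop
        have := hcont.eventually key
        filter_upwards [this] with z hz'
        rintro ⟨ϑ, b1, b2, b3, b4⟩
        refine hz' ⟨ϑ, b1, b2, ?_, ?_⟩
        · rw [e2, neg_neg]; exact b3
        · rw [e3, neg_neg, abs_neg]; exact b4
    · -- the end `π / 2`
      subst h4
      have hw : S.om (shf κ α z₀.1, π / 2) = 0 := S.om_half _
      have ho : D.om z₀ = 0 := by
        rw [hw] at a4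
        exact abs_eq_zero.1 (le_antisymm a4 (abs_nonneg _))
      have hsys := sysQ h0 hκ hκ1 S hα
      have hopen : IsOpen {z : ℝ × ℝ | 0 < z.2 ∧ z.2 < π} :=
        (isOpen_lt continuous_const continuous_snd).inter
          (isOpen_lt continuous_snd continuous_const)
      have hd : DifferentiableAt ℝ S.om (shf κ α z₀.1, π / 2) :=
        (S.sysQ.2.1.contDiffAt (hopen.mem_nhds (by
          constructor
          · simp only; linarith
          · simp only; linarith))).differentiableAt (by simp)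
      have h2 : HasD (Wf S α) (z₀.1, π / 2)
          (D1 S.om (shf κ α z₀.1, π / 2)) (D2 S.om (shf κ α z₀.1, π / 2)) :=
        HasD.shift (f := S.om) (z := (z₀.1, π / 2)) (k := Real.log α / (1 - κ)) (hasD_of_diff hd)
      refine caseS h1 hc hκ hκ1 S D hα hα1 hP hz hu (c := π / 2) (σ := -1) (by norm_num) hopen
        ⟨by simp only; linarith, by simp only; linarith⟩ hsys ?_ ?_ ?_ ?_ ?_ ?_ hU ?_
      · rw [h2.d2]
        have := S.dom_half (shf κ α z₀.1)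
        linarith
      · intro τ s m1 m2
        obtain ⟨m3, m4⟩ := m1
        simp only at m3 m4
        have := S.om_refl (shf κ α τ) (π / 2 + -1 * s) m3 m4
        have e : π - (π / 2 + -1 * s) = π / 2 - -1 * s := by ring
        rw [e] at this
        exact this
      · intro τ s
        unfold Uf
        simp only
        have h5 := S.per (shf κ α τ) (π / 2 - -1 * s - π)
        have h6 := S.even (shf κ α τ) (π / 2 - -1 * s - π)
        have e1 : π / 2 - -1 * s - π + π = π / 2 - -1 * s := by ring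
        have e2 : -(π / 2 - -1 * s - π) = π / 2 + -1 * s := by ring
        rw [e1] at h5
        rw [e2] at h6
        rw [h5, ← h6]
      · intro s h5 h6
        constructor <;> linarith
      · intro ϑ h5 h6
        exact ⟨π / 2 - ϑ, by linarith, by linarith, by ring⟩
      · intro τ s s' h5 h6 h7
        have := (h1 κ hκ hκ1 S).1 (shf κ α τ) (π / 2 + -1 * s') (π / 2 + -1 * s) (by linarith)
          (by linarith) (by linarith)
        have h8 := mul_lt_mul_of_pos_left this hα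
        unfold Uf
        simp only
        linarith
      · rw [ho]
        exact hw.symm
  · -- the end `0`
    subst h3
    have ht : shf κ α z₀.1 < 0 := by
      by_contra hcon
      have hn : (shf κ α z₀.1, (0 : ℝ)) ∉ SC := by
        intro h
        rcases h with h | h
        · exact hcon h
        · exact h (by simp)
      rw [S.slit _ hn] at a3
      have : D.u z₀ / α < 1 := by
        rw [div_lt_one hα]
        exact hu
      linarith
    have hw : S.om (shf κ α z₀.1, 0) = 0 := S.om_zero _ ht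
    have ho : D.om z₀ = 0 := by
      rw [hw] at a4
      exact abs_eq_zero.1 (le_antisymm a4 (abs_nonneg _))
    have hsys := sysN h0 hκ hκ1 S hα
    have hopen' : IsOpen {z : ℝ × ℝ | z.1 < 0} := isOpen_lt continuous_fst continuous_const
    have hopen : IsOpen {z : ℝ × ℝ | shf κ α z.1 < 0} := by
      unfold shf
      exact isOpen_lt (by fun_prop) continuous_const
    have hd : DifferentiableAt ℝ S.om (shf κ α z₀.1, 0) :=
      (S.sysN.2.1.contDiffAt (hopen'.mem_nhds ht)).differentiableAt (by simp)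
    have h2 : HasD (Wf S α) (z₀.1, 0)
        (D1 S.om (shf κ α z₀.1, 0)) (D2 S.om (shf κ α z₀.1, 0)) :=
      HasD.shift (f := S.om) (z := (z₀.1, 0)) (k := Real.log α / (1 - κ)) (hasD_of_diff hd)
    refine caseS h1 hc hκ hκ1 S D hα hα1 hP hz hu (c := 0) (σ := 1) (by norm_num) hopen
      ht hsys ?_ ?_ ?_ ?_ ?_ ?_ hU ?_
    · rw [h2.d2, one_mul]
      exact S.dom_zero (shf κ α z₀.1) ht
    · intro τ s m1 m2
      have := S.om_odd (shf κ α τ) (0 + 1 * s) m1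
      have e : -(0 + 1 * s) = 0 - 1 * s := by ring
      rw [e] at this
      exact this
    · intro τ s
      unfold Uf
      simp only
      have h6 := S.even (shf κ α τ) (0 + 1 * s)
      have e2 : -(0 + 1 * s) = 0 - 1 * s := by ring
      rw [e2] at h6
      rw [h6]
    · intro s h5 h6
      constructor <;> linarith
    · intro ϑ h5 h6
      exact ⟨ϑ, h5, h6, by ring⟩
    · intro τ s s' h5 h6 h7
      have := (h1 κ hκ hκ1 S).1 (shf κ α τ) (0 + 1 * s) (0 + 1 * s') (by linarith)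
        (by linarith) (by linarith)
      have h8 := mul_lt_mul_of_pos_left this hα
      unfold Uf
      simp only
      linarith
    · rw [ho]
      exact hw.symm

end Pool.Agent.Helper52.PCap
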