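import Pool.Agent.Helper52.PCap.Calc

/-!
Planar p-capacity (MP_576c25_an): PACKET CHART.
-/

set_option autoImplicit false

open MeasureTheory Set Filter Topology
open scoped ContDiff Real

noncomputable section

namespace Pool.Agent.Helper52.PCap

open Pool.Agent.Helper25.PCap

/-- The hypotheses of the computation. -/
structure Ctx (κ : ℝ) (a b₁ b₂ : ℝ → ℝ) (X₁ X₂ Y₁ Y₂ : ℝ × ℝ → ℝ) (N M O : Set (ℝ × ℝ))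
    (th : ℝ × ℝ → ℝ) : Prop where
  κpos : 0 < κ
  ha : ContDiff ℝ ∞ a
  hb₁ : ContDiff ℝ ∞ b₁
  hb₂ : ContDiff ℝ ∞ b₂
  ha0 : ∀ τ, a τ ≠ 0
  hN : IsOpen N
  hM : IsOpen M
  hO : IsOpen O
  hON : O ⊆ N
  hX₁ : ContDiffOn ℝ ∞ X₁ N
  hX₂ : ContDiffOn ℝ ∞ X₂ N
  hY₁ : ContDiffOn ℝ ∞ Y₁ M
  hY₂ : ContDiffOn ℝ ∞ Y₂ M
  sX₁ : ∀ z ∈ N, D1 X₁ z = a z.1 * D2 X₂ z + b₁ z.1
  sX₂ : ∀ z ∈ N, D1 X₂ z = -(κ / a z.1) * D2 X₁ z + b₂ z.1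
  sY₁ : ∀ z ∈ M, D1 Y₁ z = a z.1 * D2 Y₂ z + b₁ z.1
  sY₂ : ∀ z ∈ M, D1 Y₂ z = -(κ / a z.1) * D2 Y₁ z + b₂ z.1
  hth : ∀ z ∈ O, ContDiffAt ℝ 2 th z
  hPM : ∀ z ∈ O, (z.1, th z) ∈ M
  hY : ∀ z ∈ O, Y₁ (z.1, th z) = X₁ z
  hne : ∀ z ∈ O, D2 Y₁ (z.1, th z) ≠ 0

theorem two_le_inf : (2 : WithTop ℕ∞) ≤ ∞ :=
  WithTop.coe_le_coe.2 (le_top : (2 : ℕ∞) ≤ ⊤)

section sys
variable {κ : ℝ} {a b₁ b₂ : ℝ → ℝ} {Y₁ Y₂ : ℝ × ℝ → ℝ} {M : Set (ℝ × ℝ)}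

/-- mixed derivatives of a solution of the system -/
theorem sys_mixed₁ (ha : ContDiff ℝ ∞ a) (hb₁ : ContDiff ℝ ∞ b₁) (hM : IsOpen M)
    (hY₁ : ContDiffOn ℝ ∞ Y₁ M) (hY₂ : ContDiffOn ℝ ∞ Y₂ M)
    (sY₁ : ∀ z ∈ M, D1 Y₁ z = a z.1 * D2 Y₂ z + b₁ z.1) {z : ℝ × ℝ} (hz : z ∈ M) :
    D1 (D2 Y₁) z = a z.1 * D2 (D2 Y₂) z := by
  have h1 : ContDiffAt ℝ 2 Y₁ z := (hY₁.contDiffAt (hM.mem_nhds hz)).of_le two_le_inf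
  have h2 : ContDiffAt ℝ 2 Y₂ z := (hY₂.contDiffAt (hM.mem_nhds hz)).of_le two_le_inf
  rw [D1_D2_comm h1]
  have h3 : HasD (fun w : ℝ × ℝ => a w.1 * D2 Y₂ w + b₁ w.1) z _ _ :=
    ((HasD.fst (ha.differentiable (by simp) z.1).hasDerivAt).mul (hasD_of_diff (diff_D2 h2))).add
      (HasD.fst (hb₁.differentiable (by simp) z.1).hasDerivAt)
  have h4 : D1 Y₁ =ᶠ[𝓝 z] fun w => a w.1 * D2 Y₂ w + b₁ w.1 :=
    Filter.eventually_of_mem (hM.mem_nhds hz) sY₁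
  rw [(h3.congr h4).d2]
  ring

theorem sys_mixed₂ (ha : ContDiff ℝ ∞ a) (ha0 : ∀ τ, a τ ≠ 0) (hb₂ : ContDiff ℝ ∞ b₂)
    (hM : IsOpen M)
    (hY₁ : ContDiffOn ℝ ∞ Y₁ M) (hY₂ : ContDiffOn ℝ ∞ Y₂ M)
    (sY₂ : ∀ z ∈ M, D1 Y₂ z = -(κ / a z.1) * D2 Y₁ z + b₂ z.1) {z : ℝ × ℝ} (hz : z ∈ M) :
    D1 (D2 Y₂) z = -(κ / a z.1) * D2 (D2 Y₁) z := by
  have hk : ContDiff ℝ ∞ fun τ => -(κ / a τ) := (contDiff_const.div ha ha0).neg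
  exact sys_mixed₁ hk hb₂ hM hY₂ hY₁ sY₂ hz

end sys

variable {κ : ℝ} {a b₁ b₂ : ℝ → ℝ} {X₁ X₂ Y₁ Y₂ : ℝ × ℝ → ℝ} {N M O : Set (ℝ × ℝ)}
    {th : ℝ × ℝ → ℝ}

/-- `X₁_θ` of the second surface along the chart -/
def al (Y₁ th : ℝ × ℝ → ℝ) (w : ℝ × ℝ) : ℝ := D2 Y₁ (w.1, th w)

/-- the second derivative along the chart -/
def ya (Y₁ th : ℝ × ℝ → ℝ) (w : ℝ × ℝ) : ℝ := D2 (D2 Y₁) (w.1, th w)

theorem Ctx.cY₁ (h : Ctx κ a b₁ b₂ X₁ X₂ Y₁ Y₂ N M O th) {z : ℝ × ℝ} (hz : z ∈ O) (n : ℕ) :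
    ContDiffAt ℝ n Y₁ (z.1, th z) :=
  (h.hY₁.contDiffAt (h.hM.mem_nhds (h.hPM z hz))).of_le (by exact_mod_cast le_top)

theorem Ctx.cY₂ (h : Ctx κ a b₁ b₂ X₁ X₂ Y₁ Y₂ N M O th) {z : ℝ × ℝ} (hz : z ∈ O) (n : ℕ) :
    ContDiffAt ℝ n Y₂ (z.1, th z) :=
  (h.hY₂.contDiffAt (h.hM.mem_nhds (h.hPM z hz))).of_le (by exact_mod_cast le_top)

theorem Ctx.cX₁ (h : Ctx κ a b₁ b₂ X₁ X₂ Y₁ Y₂ N M O th) {z : ℝ × ℝ} (hz : z ∈ O) (n : ℕ) :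
    ContDiffAt ℝ n X₁ z :=
  (h.hX₁.contDiffAt (h.hN.mem_nhds (h.hON hz))).of_le (by exact_mod_cast le_top)

theorem Ctx.cX₂ (h : Ctx κ a b₁ b₂ X₁ X₂ Y₁ Y₂ N M O th) {z : ℝ × ℝ} (hz : z ∈ O) (n : ℕ) :
    ContDiffAt ℝ n X₂ z :=
  (h.hX₂.contDiffAt (h.hN.mem_nhds (h.hON hz))).of_le (by exact_mod_cast le_top)

theorem Ctx.hasTh (h : Ctx κ a b₁ b₂ X₁ X₂ Y₁ Y₂ N M O th) {z : ℝ × ℝ} (hz : z ∈ O) :
    HasD th z (D1 th z) (D2 th z) :=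
  hasD_of_diff ((h.hth z hz).differentiableAt (by norm_num))

theorem Ctx.rel (h : Ctx κ a b₁ b₂ X₁ X₂ Y₁ Y₂ N M O th) {z : ℝ × ℝ} (hz : z ∈ O) :
    al Y₁ th z * D2 th z = D2 X₁ z ∧
      al Y₁ th z * D1 th z = a z.1 * (D2 X₂ z - al Y₂ th z) := by
  have h1 : HasD Y₁ (z.1, th z) (D1 Y₁ (z.1, th z)) (D2 Y₁ (z.1, th z)) :=
    hasD_of_diff ((h.cY₁ hz 1).differentiableAt (by norm_num))
  have h2 := h1.compP (h.hasTh hz)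
  have h3 : X₁ =ᶠ[𝓝 z] fun w => Y₁ (w.1, th w) :=
    Filter.eventually_of_mem (h.hO.mem_nhds hz) fun w hw => (h.hY w hw).symm
  have h4 := h2.congr h3
  have e1 := h4.d1
  have e2 := h4.d2
  rw [h.sX₁ z (h.hON hz), h.sY₁ _ (h.hPM z hz)] at e1
  unfold al
  refine ⟨e2.symm, ?_⟩
  simp only at e1
  linear_combination -e1

theorem Ctx.hasAl₁ (h : Ctx κ a b₁ b₂ X₁ X₂ Y₁ Y₂ N M O th) {z : ℝ × ℝ} (hz : z ∈ O) :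
    HasD (al Y₁ th) z (a z.1 * ya Y₂ th z + ya Y₁ th z * D1 th z) (ya Y₁ th z * D2 th z) := by
  have h1 := hasD_of_diff (diff_D2 (h.cY₁ hz 2))
  have h2 := h1.compP (h.hasTh hz)
  rw [sys_mixed₁ h.ha h.hb₁ h.hM h.hY₁ h.hY₂ h.sY₁ (h.hPM z hz)] at h2
  exact h2

theorem Ctx.hasAl₂ (h : Ctx κ a b₁ b₂ X₁ X₂ Y₁ Y₂ N M O th) {z : ℝ × ℝ} (hz : z ∈ O) :
    HasD (al Y₂ th) z (-(κ / a z.1) * ya Y₁ th z + ya Y₂ th z * D1 th z)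
      (ya Y₂ th z * D2 th z) := by
  have h1 := hasD_of_diff (diff_D2 (h.cY₂ hz 2))
  have h2 := h1.compP (h.hasTh hz)
  rw [sys_mixed₂ h.ha h.ha0 h.hb₂ h.hM h.hY₁ h.hY₂ h.sY₂ (h.hPM z hz)] at h2
  exact h2

/-- the function `Φ` -/
def Ph (X₂ Y₂ th : ℝ × ℝ → ℝ) (w : ℝ × ℝ) : ℝ := Y₂ (w.1, th w) - X₂ w

theorem Ctx.hasPh (h : Ctx κ a b₁ b₂ X₁ X₂ Y₁ Y₂ N M O th) {z : ℝ × ℝ} (hz : z ∈ O) :
    HasD (Ph X₂ Y₂ th) z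
      (κ / a z.1 * (D2 X₁ z - al Y₁ th z) + al Y₂ th z * D1 th z)
      (al Y₂ th z * D2 th z - D2 X₂ z) := by
  have h1 : HasD Y₂ (z.1, th z) (D1 Y₂ (z.1, th z)) (D2 Y₂ (z.1, th z)) :=
    hasD_of_diff ((h.cY₂ hz 1).differentiableAt (by norm_num))
  have h2 := h1.compP (h.hasTh hz)
  have h3 : HasD X₂ z (D1 X₂ z) (D2 X₂ z) :=
    hasD_of_diff ((h.cX₂ hz 1).differentiableAt (by norm_num))
  have h4 := h2.sub h3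
  refine h4.cast ?_ rfl
  rw [h.sX₂ z (h.hON hz), h.sY₂ _ (h.hPM z hz)]
  unfold al
  simp only
  ring

theorem Ctx.diffPh (h : Ctx κ a b₁ b₂ X₁ X₂ Y₁ Y₂ N M O th) {z : ℝ × ℝ} (hz : z ∈ O) :
    ContDiffAt ℝ 2 (Ph X₂ Y₂ th) z := by
  have h1 : ContDiffAt ℝ 2 (fun w : ℝ × ℝ => (w.1, th w)) z := contDiffAt_fst.prodMk (h.hth z hz)
  have h2 : ContDiffAt ℝ 2 (fun w : ℝ × ℝ => Y₂ (w.1, th w)) z :=
    ContDiffAt.comp z (g := Y₂) (f := fun w : ℝ × ℝ => (w.1, th w)) (h.cY₂ hz 2) h1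
  exact h2.sub (h.cX₂ hz 2)

/-- second derivatives of `Φ` -/
theorem Ctx.second (h : Ctx κ a b₁ b₂ X₁ X₂ Y₁ Y₂ N M O th) {z : ℝ × ℝ} (hz : z ∈ O) :
    D1 (D1 (Ph X₂ Y₂ th)) z = deriv (fun τ => κ / a τ) z.1 * (D2 X₁ z - al Y₁ th z) +
      κ / a z.1 * (a z.1 * D2 (D2 X₂) z - (a z.1 * ya Y₂ th z + ya Y₁ th z * D1 th z)) +
      ((-(κ / a z.1) * ya Y₁ th z + ya Y₂ th z * D1 th z) * D1 th z +
        al Y₂ th z * D1 (D1 th) z) ∧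
    D2 (D2 (Ph X₂ Y₂ th)) z = ya Y₂ th z * D2 th z * D2 th z + al Y₂ th z * D2 (D2 th) z -
      D2 (D2 X₂) z := by
  have hk : ContDiff ℝ ∞ fun τ => κ / a τ := contDiff_const.div h.ha h.ha0
  have hkd : HasD (fun w : ℝ × ℝ => κ / a w.1) z (deriv (fun τ => κ / a τ) z.1) 0 :=
    HasD.fst (a := fun τ => κ / a τ) (hk.differentiable (by simp) z.1).hasDerivAt
  have hX₁ : HasD (D2 X₁) z (a z.1 * D2 (D2 X₂) z) (D2 (D2 X₁) z) :=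
    (hasD_of_diff (diff_D2 (h.cX₁ hz 2))).cast
      (sys_mixed₁ h.ha h.hb₁ h.hN h.hX₁ h.hX₂ h.sX₁ (h.hON hz)) rfl
  have hX₂ : HasD (D2 X₂) z (D1 (D2 X₂) z) (D2 (D2 X₂) z) :=
    hasD_of_diff (diff_D2 (h.cX₂ hz 2))
  have ht1 : HasD (D1 th) z (D1 (D1 th) z) (D2 (D1 th) z) := hasD_of_diff (diff_D1 (h.hth z hz))
  have ht2 : HasD (D2 th) z (D1 (D2 th) z) (D2 (D2 th) z) := hasD_of_diff (diff_D2 (h.hth z hz))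
  constructor
  · have h1 : D1 (Ph X₂ Y₂ th) =ᶠ[𝓝 z] fun w =>
        κ / a w.1 * (D2 X₁ w - al Y₁ th w) + al Y₂ th w * D1 th w :=
      Filter.eventually_of_mem (h.hO.mem_nhds hz) fun w hw => (h.hasPh hw).d1
    have h2 := (hkd.mul (hX₁.sub (h.hasAl₁ hz))).add ((h.hasAl₂ hz).mul ht1)
    rw [(h2.congr h1).d1]
  · have h1 : D2 (Ph X₂ Y₂ th) =ᶠ[𝓝 z] fun w => al Y₂ th w * D2 th w - D2 X₂ w :=
      Filter.eventually_of_mem (h.hO.mem_nhds hz) fun w hw => (h.hasPh hw).d2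
    have h2 := ((h.hasAl₂ hz).mul ht2).sub hX₂
    rw [(h2.congr h1).d2]

theorem Ctx.rel2 (h : Ctx κ a b₁ b₂ X₁ X₂ Y₁ Y₂ N M O th) {z : ℝ × ℝ} (hz : z ∈ O) :
    ya Y₁ th z * D2 th z * D2 th z + al Y₁ th z * D2 (D2 th) z = D2 (D2 X₁) z ∧
    (a z.1 * ya Y₂ th z + ya Y₁ th z * D1 th z) * D1 th z + al Y₁ th z * D1 (D1 th) z =
      deriv a z.1 * (D2 X₂ z - al Y₂ th z) +
        a z.1 * (-(κ / a z.1) * D2 (D2 X₁) z -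
          (-(κ / a z.1) * ya Y₁ th z + ya Y₂ th z * D1 th z)) := by
  have had : HasD (fun w : ℝ × ℝ => a w.1) z (deriv a z.1) 0 :=
    HasD.fst (h.ha.differentiable (by simp) z.1).hasDerivAt
  have hX₁ : HasD (D2 X₁) z (D1 (D2 X₁) z) (D2 (D2 X₁) z) :=
    hasD_of_diff (diff_D2 (h.cX₁ hz 2))
  have hX₂ : HasD (D2 X₂) z (-(κ / a z.1) * D2 (D2 X₁) z) (D2 (D2 X₂) z) :=
    (hasD_of_diff (diff_D2 (h.cX₂ hz 2))).cast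
      (sys_mixed₂ h.ha h.ha0 h.hb₂ h.hN h.hX₁ h.hX₂ h.sX₂ (h.hON hz)) rfl
  have ht1 : HasD (D1 th) z (D1 (D1 th) z) (D2 (D1 th) z) := hasD_of_diff (diff_D1 (h.hth z hz))
  have ht2 : HasD (D2 th) z (D1 (D2 th) z) (D2 (D2 th) z) := hasD_of_diff (diff_D2 (h.hth z hz))
  constructor
  · have h1 : D2 X₁ =ᶠ[𝓝 z] fun w => al Y₁ th w * D2 th w :=
      Filter.eventually_of_mem (h.hO.mem_nhds hz) fun w hw => (h.rel hw).1.symm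
    have h2 := ((h.hasAl₁ hz).mul ht2)
    exact (h2.congr h1).d2.symm
  · have h1 : (fun w => al Y₁ th w * D1 th w) =ᶠ[𝓝 z]
        fun w => a w.1 * (D2 X₂ w - al Y₂ th w) :=
      Filter.eventually_of_mem (h.hO.mem_nhds hz) fun w hw => (h.rel hw).2
    have h2 := ((h.hasAl₁ hz).mul ht1)
    have h3 := had.mul (hX₂.sub (h.hasAl₂ hz))
    have h4 := h3.congr h1
    have := h2.d1.symm.trans h4.d1
    exact this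

/-- coefficient of `d₁` -/
def E1 (κ : ℝ) (a : ℝ → ℝ) (Y₁ Y₂ th : ℝ × ℝ → ℝ) (z : ℝ × ℝ) : ℝ :=
  deriv (fun τ => κ / a τ) z.1 + ya Y₂ th z * κ * (D2 th z + 1) / al Y₁ th z -
    ya Y₁ th z * κ * al Y₂ th z * (D2 th z + 1) / al Y₁ th z ^ 2

/-- coefficient of `d₂` -/
def E2 (κ : ℝ) (a : ℝ → ℝ) (Y₁ Y₂ th : ℝ × ℝ → ℝ) (z : ℝ × ℝ) : ℝ :=
  al Y₂ th z / al Y₁ th z * deriv a z.1 +
    ya Y₂ th z * (al Y₁ th z * D1 th z - 2 * a z.1 * al Y₂ th z) * a z.1 / al Y₁ th z ^ 2 +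
    ya Y₁ th z * (-(2 * κ * al Y₁ th z / a z.1) - al Y₂ th z * D1 th z) * a z.1 / al Y₁ th z ^ 2

/-- the determinant -/
def De (κ : ℝ) (a : ℝ → ℝ) (Y₁ Y₂ th : ℝ × ℝ → ℝ) (z : ℝ × ℝ) : ℝ :=
  a z.1 * al Y₂ th z ^ 2 + κ * al Y₁ th z ^ 2 / a z.1

/-- coefficient of `Φ_τ` -/
def cA (κ : ℝ) (a : ℝ → ℝ) (Y₁ Y₂ th : ℝ × ℝ → ℝ) (z : ℝ × ℝ) : ℝ :=
  (E1 κ a Y₁ Y₂ th z * al Y₁ th z ^ 2 + E2 κ a Y₁ Y₂ th z * al Y₁ th z * al Y₂ th z) /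
    De κ a Y₁ Y₂ th z

/-- coefficient of `Φ_θ` -/
def cB (κ : ℝ) (a : ℝ → ℝ) (Y₁ Y₂ th : ℝ × ℝ → ℝ) (z : ℝ × ℝ) : ℝ :=
  (E1 κ a Y₁ Y₂ th z * a z.1 * al Y₁ th z * al Y₂ th z -
    E2 κ a Y₁ Y₂ th z * κ * al Y₁ th z ^ 2 / a z.1) / De κ a Y₁ Y₂ th z

theorem De_ne (hκ : 0 < κ) {a : ℝ → ℝ} {z : ℝ × ℝ} (ha : a z.1 ≠ 0) (hal : al Y₁ th z ≠ 0) :
    De κ a Y₁ Y₂ th z ≠ 0 := by
  intro h
  have h1 : a z.1 * De κ a Y₁ Y₂ th z = (a z.1) ^ 2 * al Y₂ th z ^ 2 + κ * al Y₁ th z ^ 2 := by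
    unfold De
    field_simp
  rw [h, mul_zero] at h1
  have h2 : 0 < al Y₁ th z ^ 2 := by positivity
  have h3 : 0 < κ * al Y₁ th z ^ 2 := mul_pos hκ h2
  have h4 : 0 ≤ (a z.1) ^ 2 * al Y₂ th z ^ 2 := by positivity
  linarith

/-- the equation of `Φ` -/
theorem Ctx.main (h : Ctx κ a b₁ b₂ X₁ X₂ Y₁ Y₂ N M O th) {z : ℝ × ℝ} (hz : z ∈ O) :
    D1 (D1 (Ph X₂ Y₂ th)) z + κ * D2 (D2 (Ph X₂ Y₂ th)) z =
      cA κ a Y₁ Y₂ th z * D1 (Ph X₂ Y₂ th) z + cB κ a Y₁ Y₂ th z * D2 (Ph X₂ Y₂ th) z := by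
  obtain ⟨r1, r2⟩ := h.rel hz
  obtain ⟨r3, r4⟩ := h.rel2 hz
  obtain ⟨s1, s2⟩ := h.second hz
  rw [s1, s2, (h.hasPh hz).d1, (h.hasPh hz).d2]
  have hal : al Y₁ th z ≠ 0 := h.hne z hz
  have ha := h.ha0 z.1
  have hDe : De κ a Y₁ Y₂ th z ≠ 0 := De_ne h.κpos ha hal
  unfold cA cB
  have hd : De κ a Y₁ Y₂ th z = a z.1 * al Y₂ th z ^ 2 + κ * al Y₁ th z ^ 2 / a z.1 := rfl
  set d := De κ a Y₁ Y₂ th z with hd'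
  have e1 : E1 κ a Y₁ Y₂ th z = deriv (fun τ => κ / a τ) z.1 +
    ya Y₂ th z * κ * (D2 th z + 1) / al Y₁ th z -
    ya Y₁ th z * κ * al Y₂ th z * (D2 th z + 1) / al Y₁ th z ^ 2 := rfl
  have e2 : E2 κ a Y₁ Y₂ th z = al Y₂ th z / al Y₁ th z * deriv a z.1 +
    ya Y₂ th z * (al Y₁ th z * D1 th z - 2 * a z.1 * al Y₂ th z) * a z.1 / al Y₁ th z ^ 2 +
    ya Y₁ th z * (-(2 * κ * al Y₁ th z / a z.1) - al Y₂ th z * D1 th z) * a z.1 / al Y₁ th z ^ 2 :=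
    rfl
  set E₁ := E1 κ a Y₁ Y₂ th z
  set E₂ := E2 κ a Y₁ Y₂ th z
  set k' := deriv (fun τ => κ / a τ) z.1
  set a' := deriv a z.1
  set A := a z.1
  set α := al Y₁ th z
  set β := al Y₂ th z
  set y₁ := ya Y₁ th z
  set y₂ := ya Y₂ th z
  set s := D2 th z
  set t := D1 th z
  set tt := D1 (D1 th) z
  set ss := D2 (D2 th) z
  set ξ := D2 X₁ z
  set η := D2 X₂ z
  set ξ' := D2 (D2 X₁) z
  set η' := D2 (D2 X₂) z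
  -- the right hand side is `E₁ d₁ + E₂ d₂`
  have f1 : (E₁ * α ^ 2 + E₂ * α * β) / d * (κ / A * (ξ - α) + β * t) +
      (E₁ * A * α * β - E₂ * κ * α ^ 2 / A) / d * (β * s - η) = E₁ * (ξ - α) + E₂ * (η - β) := by
    have hη : η = β + α * t / A := by
      field_simp
      linear_combination -r2
    have hx : ξ = α * s := r1.symm
    have hsum : (E₁ * α ^ 2 + E₂ * α * β) / d * (κ / A * (ξ - α) + β * t) +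
        (E₁ * A * α * β - E₂ * κ * α ^ 2 / A) / d * (β * s - η) =
        ((E₁ * α ^ 2 + E₂ * α * β) * (κ / A * (ξ - α) + β * t) +
        (E₁ * A * α * β - E₂ * κ * α ^ 2 / A) * (β * s - η)) / d := by ring
    rw [hsum, div_eq_iff hDe, hd, hη, hx]
    field_simp
    ring
  rw [f1, e1, e2]
  have hη : η = β + α * t / A := by
    field_simp
    linear_combination -r2
  have hx : ξ = α * s := r1.symm
  have r5 : a' * (η - β) + A * (-(κ / A) * ξ' - (-(κ / A) * y₁ + y₂ * t)) =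
      a' * (η - β) - κ * ξ' + κ * y₁ - A * y₂ * t := by
    field_simp
    ring
  rw [r5] at r4
  have htt : tt = (a' * (η - β) - κ * ξ' + κ * y₁ - A * y₂ * t -
      (A * y₂ + y₁ * t) * t) / α := by
    rw [eq_div_iff hal]
    linear_combination r4
  have hx' : ξ' = y₁ * s * s + α * ss := r3.symm
  rw [htt, hη, hx, hx']
  field_simp
  ring

/-! ### continuity of the coefficients -/

section cont
variable {z : ℝ × ℝ}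

theorem Ctx.c_al₁ (h : Ctx κ a b₁ b₂ X₁ X₂ Y₁ Y₂ N M O th) (hz : z ∈ O) :
    ContinuousAt (al Y₁ th) z := (h.hasAl₁ hz).diff.continuousAt

theorem Ctx.c_al₂ (h : Ctx κ a b₁ b₂ X₁ X₂ Y₁ Y₂ N M O th) (hz : z ∈ O) :
    ContinuousAt (al Y₂ th) z := (h.hasAl₂ hz).diff.continuousAt

theorem Ctx.c_P (h : Ctx κ a b₁ b₂ X₁ X₂ Y₁ Y₂ N M O th) (hz : z ∈ O) :
    ContinuousAt (fun w : ℝ × ℝ => (w.1, th w)) z :=
  continuousAt_fst.prodMk (h.hasTh hz).diff.continuousAt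

theorem cont_D22 {Y : ℝ × ℝ → ℝ} {p : ℝ × ℝ} (hY : ContDiffAt ℝ (3 : ℕ) Y p) :
    ContinuousAt (D2 (D2 Y)) p := by
  have h1 : ContDiffAt ℝ 2 (D2 Y) p := contDiffAt_D2 (n := 2) (by exact_mod_cast hY)
  have h2 : ContDiffAt ℝ 1 (D2 (D2 Y)) p := contDiffAt_D2 (n := 1) (by exact_mod_cast h1)
  exact h2.continuousAt

theorem Ctx.c_ya₁ (h : Ctx κ a b₁ b₂ X₁ X₂ Y₁ Y₂ N M O th) (hz : z ∈ O) :
    ContinuousAt (ya Y₁ th) z :=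
  ContinuousAt.comp (f := fun w : ℝ × ℝ => (w.1, th w)) (g := D2 (D2 Y₁))
    (cont_D22 (h.cY₁ hz 3)) (h.c_P hz)

theorem Ctx.c_ya₂ (h : Ctx κ a b₁ b₂ X₁ X₂ Y₁ Y₂ N M O th) (hz : z ∈ O) :
    ContinuousAt (ya Y₂ th) z :=
  ContinuousAt.comp (f := fun w : ℝ × ℝ => (w.1, th w)) (g := D2 (D2 Y₂))
    (cont_D22 (h.cY₂ hz 3)) (h.c_P hz)

theorem Ctx.cont (h : Ctx κ a b₁ b₂ X₁ X₂ Y₁ Y₂ N M O th) (hz : z ∈ O) :
    ContinuousAt (cA κ a Y₁ Y₂ th) z ∧ ContinuousAt (cB κ a Y₁ Y₂ th) z := by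
  have hal : al Y₁ th z ≠ 0 := h.hne z hz
  have ha0 := h.ha0 z.1
  have hDe : De κ a Y₁ Y₂ th z ≠ 0 := De_ne h.κpos ha0 hal
  have c1 := h.c_al₁ hz
  have c2 := h.c_al₂ hz
  have c3 := h.c_ya₁ hz
  have c4 := h.c_ya₂ hz
  have c5 : ContinuousAt (D1 th) z := (diff_D1 (h.hth z hz)).continuousAt
  have c6 : ContinuousAt (D2 th) z := (diff_D2 (h.hth z hz)).continuousAt
  have c7 : ContinuousAt (fun w : ℝ × ℝ => a w.1) z :=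
    (h.ha.continuous.comp continuous_fst).continuousAt
  have hk : ContDiff ℝ ∞ fun τ => κ / a τ := contDiff_const.div h.ha h.ha0
  have c8 : ContinuousAt (fun w : ℝ × ℝ => deriv a w.1) z :=
    ((h.ha.continuous_deriv (by simp)).comp continuous_fst).continuousAt
  have c9 : ContinuousAt (fun w : ℝ × ℝ => deriv (fun τ => κ / a τ) w.1) z :=
    ((hk.continuous_deriv (by simp)).comp continuous_fst).continuousAt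
  have hal2 : al Y₁ th z ^ 2 ≠ 0 := pow_ne_zero _ hal
  have cE1 : ContinuousAt (E1 κ a Y₁ Y₂ th) z := by
    unfold E1
    exact (c9.add (((c4.mul_const κ).mul (c6.add continuousAt_const)).div c1 hal)).sub
      ((((c3.mul_const κ).mul c2).mul (c6.add continuousAt_const)).div (c1.pow 2) hal2)
  have cE2 : ContinuousAt (E2 κ a Y₁ Y₂ th) z := by
    unfold E2
    refine (((c2.div c1 hal).mul c8).add ?_).add ?_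
    · exact ((c4.mul ((c1.mul c5).sub ((continuousAt_const.mul c7).mul c2))).mul c7).div
        (c1.pow 2) hal2
    · exact ((c3.mul (((continuousAt_const.mul c1).div c7 ha0).neg.sub (c2.mul c5))).mul c7).div
        (c1.pow 2) hal2
  have cDe : ContinuousAt (De κ a Y₁ Y₂ th) z := by
    unfold De
    exact (c7.mul (c2.pow 2)).add ((continuousAt_const.mul (c1.pow 2)).div c7 ha0)
  constructor
  · unfold cA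
    exact ((cE1.mul (c1.pow 2)).add ((cE2.mul c1).mul c2)).div cDe hDe
  · unfold cB
    exact ((((cE1.mul c7).mul c1).mul c2).sub
      (((cE2.mul_const κ).mul (c1.pow 2)).div c7 ha0)).div cDe hDe

end cont

/-! ### the local chart -/

/-- the implicit function -/
theorem exists_th {X₁ Y₁ : ℝ × ℝ → ℝ} {τ₀ θ₀ ϑ₀ : ℝ} (hX : ContDiffAt ℝ 2 X₁ (τ₀, θ₀))
    (hY : ContDiffAt ℝ 2 Y₁ (τ₀, ϑ₀)) (he : X₁ (τ₀, θ₀) = Y₁ (τ₀, ϑ₀))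
    (hne : D2 Y₁ (τ₀, ϑ₀) ≠ 0) :
    ∃ th : ℝ × ℝ → ℝ, th (τ₀, θ₀) = ϑ₀ ∧ ContDiffAt ℝ 2 th (τ₀, θ₀) ∧
      ∀ᶠ z in 𝓝 (τ₀, θ₀), Y₁ (z.1, th z) = X₁ z := by
  set p := D1 Y₁ (τ₀, ϑ₀) with hp
  set q := D2 Y₁ (τ₀, ϑ₀) with hq
  have hYd : HasD Y₁ (τ₀, ϑ₀) p q := hasD_of_diff (hY.differentiableAt (by norm_num))
  set F : ℝ × ℝ → ℝ × ℝ := fun w => (w.1, Y₁ w) with hFdef
  set e : (ℝ × ℝ) ≃L[ℝ] (ℝ × ℝ) := ContinuousLinearEquiv.equivOfInverse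
    ((ContinuousLinearMap.fst ℝ ℝ ℝ).prod
      (p • ContinuousLinearMap.fst ℝ ℝ ℝ + q • ContinuousLinearMap.snd ℝ ℝ ℝ))
    ((ContinuousLinearMap.fst ℝ ℝ ℝ).prod
      ((-(p / q)) • ContinuousLinearMap.fst ℝ ℝ ℝ + (1 / q) • ContinuousLinearMap.snd ℝ ℝ ℝ))
    (by
      intro w
      ext
      · simp
      · simp
        field_simp
        ring)
    (by
      intro w
      ext
      · simp
      · simp
        field_simp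
        ring) with hedef
  have hF : HasFDerivAt F (e : (ℝ × ℝ) →L[ℝ] (ℝ × ℝ)) (τ₀, ϑ₀) := by
    have := (hasFDerivAt_fst (𝕜 := ℝ) (p := ((τ₀, ϑ₀) : ℝ × ℝ))).prodMk hYd
    exact this
  have hFc : ContDiffAt ℝ 2 F (τ₀, ϑ₀) := contDiffAt_fst.prodMk hY
  have hn : (2 : WithTop ℕ∞) ≠ 0 := by norm_num
  set G := hFc.localInverse hF hn with hG
  have hGc : ContDiffAt ℝ 2 G (F (τ₀, ϑ₀)) := hFc.to_localInverse hF hn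
  have hG0 : G (F (τ₀, ϑ₀)) = (τ₀, ϑ₀) := hFc.localInverse_apply_image hF hn
  have hGF : ∀ᶠ y in 𝓝 (F (τ₀, ϑ₀)), F (G y) = y :=
    (hFc.hasStrictFDerivAt' hF hn).eventually_right_inverse
  have hE : F (τ₀, ϑ₀) = (τ₀, X₁ (τ₀, θ₀)) := by rw [he]
  rw [hE] at hGc hG0 hGF
  have hin : ContDiffAt ℝ 2 (fun z : ℝ × ℝ => (z.1, X₁ z)) (τ₀, θ₀) := contDiffAt_fst.prodMk hX
  refine ⟨fun z => (G (z.1, X₁ z)).2, ?_, ?_, ?_⟩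
  · simp only
    rw [hG0]
  · have := ContDiffAt.comp (τ₀, θ₀) (g := G) (f := fun z : ℝ × ℝ => (z.1, X₁ z)) hGc hin
    exact contDiffAt_snd.comp _ this
  · have := hin.continuousAt.eventually hGF
    filter_upwards [this] with z hz
    have h1' : (F (G (z.1, X₁ z))).1 = (z.1, X₁ z).1 := by rw [hz]
    have h2' : (F (G (z.1, X₁ z))).2 = (z.1, X₁ z).2 := by rw [hz]
    have h1 : (G (z.1, X₁ z)).1 = z.1 := h1'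
    have h2 : Y₁ (G (z.1, X₁ z)) = X₁ z := h2'
    have h3 : G (z.1, X₁ z) = (z.1, (G (z.1, X₁ z)).2) := Prod.ext h1 rfl
    rw [← h3]
    exact h2

theorem pkChart (hS : GSMP) : GChart := by
  intro κ a b₁ b₂ X₁ X₂ Y₁ Y₂ N M τ₀ θ₀ ϑ₀ hκ ha hb₁ hb₂ ha0 hN hM hzN hzM hX₁ hX₂ hY₁ hY₂
    sX₁ sX₂ sY₁ sY₂ e1 e2 hne hle
  have cX₁ : ContDiffAt ℝ 2 X₁ (τ₀, θ₀) := (hX₁.contDiffAt (hN.mem_nhds hzN)).of_le two_le_inf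
  have cY₁ : ContDiffAt ℝ 2 Y₁ (τ₀, ϑ₀) := (hY₁.contDiffAt (hM.mem_nhds hzM)).of_le two_le_inf
  obtain ⟨th, ht0, htc, htY⟩ := exists_th cX₁ cY₁ e1 hne
  have hPc : ContinuousAt (fun w : ℝ × ℝ => (w.1, th w)) (τ₀, θ₀) :=
    continuousAt_fst.prodMk htc.continuousAt
  have hP0 : (fun w : ℝ × ℝ => (w.1, th w)) (τ₀, θ₀) = (τ₀, ϑ₀) := by
    simp only [ht0]
  have ev1 : ∀ᶠ z in 𝓝 (τ₀, θ₀), ContDiffAt ℝ 2 th z := htc.eventually (by decide)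
  have ev2 : ∀ᶠ z in 𝓝 (τ₀, θ₀), (z.1, th z) ∈ M := by
    refine hPc.eventually ?_
    rw [hP0]
    exact hM.mem_nhds hzM
  have ev3 : ∀ᶠ z in 𝓝 (τ₀, θ₀), D2 Y₁ (z.1, th z) ≠ 0 := by
    have h1 : ContinuousAt (D2 Y₁) (τ₀, ϑ₀) := (diff_D2 cY₁).continuousAt
    have h2 : ∀ᶠ p in 𝓝 (τ₀, ϑ₀), D2 Y₁ p ≠ 0 := h1.eventually_ne hne
    rw [← hP0] at h2
    exact hPc.eventually h2
  have ev4 : ∀ᶠ z in 𝓝 (τ₀, θ₀), z ∈ N := hN.mem_nhds hzN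
  have evall := (((ev1.and ev2).and ev3).and ev4).and htY
  obtain ⟨O, hO, hOo, hzO⟩ := eventually_nhds_iff.1 evall
  have hctx : Ctx κ a b₁ b₂ X₁ X₂ Y₁ Y₂ N M O th :=
    { κpos := hκ, ha := ha, hb₁ := hb₁, hb₂ := hb₂, ha0 := ha0, hN := hN, hM := hM, hO := hOo
      hON := fun z hz => (hO z hz).1.2
      hX₁ := hX₁, hX₂ := hX₂, hY₁ := hY₁, hY₂ := hY₂, sX₁ := sX₁, sX₂ := sX₂, sY₁ := sY₁
      sY₂ := sY₂
      hth := fun z hz => (hO z hz).1.1.1.1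
      hPM := fun z hz => (hO z hz).1.1.1.2
      hY := fun z hz => (hO z hz).2
      hne := fun z hz => (hO z hz).1.1.2 }
  obtain ⟨cAc, cBc⟩ := hctx.cont hzO
  set K : ℝ := |cA κ a Y₁ Y₂ th (τ₀, θ₀)| + |cB κ a Y₁ Y₂ th (τ₀, θ₀)| + 1 with hK
  have ev5 : ∀ᶠ z in 𝓝 (τ₀, θ₀), |cA κ a Y₁ Y₂ th z| < K :=
    cAc.abs.eventually_lt_const (by rw [hK]; have := abs_nonneg (cB κ a Y₁ Y₂ th (τ₀, θ₀)); linarith)
  have ev6 : ∀ᶠ z in 𝓝 (τ₀, θ₀), |cB κ a Y₁ Y₂ th z| < K :=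
    cBc.abs.eventually_lt_const (by rw [hK]; have := abs_nonneg (cA κ a Y₁ Y₂ th (τ₀, θ₀)); linarith)
  have ev7 : ∀ᶠ z in 𝓝 (τ₀, θ₀), z ∈ O := hOo.mem_nhds hzO
  obtain ⟨O', hO', hOo', hzO'⟩ := eventually_nhds_iff.1 ((ev5.and ev6).and ev7)
  have hfin := hS κ hκ O' (Ph X₂ Y₂ th) K (τ₀, θ₀) hOo'
    (fun z hz => (hctx.diffPh (hO' z hz).2).contDiffWithinAt)
    (fun z hz => by
      have hzO := (hO' z hz).2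
      have := hle z.1 z.2 (th z) (hctx.hON hzO) (hctx.hPM z hzO) (hctx.hY z hzO)
      unfold Ph
      linarith)
    (fun z hz => by
      obtain ⟨⟨h5, h6⟩, h7⟩ := hO' z hz
      rw [hctx.main h7]
      refine (abs_add_le _ _).trans ?_
      rw [abs_mul, abs_mul, mul_add]
      exact add_le_add (mul_le_mul_of_nonneg_right h5.le (abs_nonneg _))
        (mul_le_mul_of_nonneg_right h6.le (abs_nonneg _)))
    hzO' (by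
      unfold Ph
      simp only [ht0]
      rw [e2, sub_self])
  filter_upwards [hfin, ev7] with z h1 h2
  exact ⟨th z, hctx.hPM z h2, hctx.hY z h2, sub_eq_zero.1 h1⟩

end Pool.Agent.Helper52.PCap
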