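import Pool.Agent.Helper25.PCap.GoalsTools
import Pool.Agent.Helper25.PCap.GoalsA

/-!
Planar p-capacity (MP_576c25_an): calculus of the partial derivatives `D1`, `D2`.
-/

set_option autoImplicit false

open MeasureTheory Set Filter Topology
open scoped ContDiff Real

noncomputable section

namespace Pool.Agent.Helper52.PCap

open Pool.Agent.Helper25.PCap

/-- `f` has partial derivatives `p`, `q` at `z` (and is differentiable there) -/
def HasD (f : ℝ × ℝ → ℝ) (z : ℝ × ℝ) (p q : ℝ) : Prop :=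
  HasFDerivAt f (p • ContinuousLinearMap.fst ℝ ℝ ℝ + q • ContinuousLinearMap.snd ℝ ℝ ℝ) z

variable {f g : ℝ × ℝ → ℝ} {z : ℝ × ℝ} {p q r s : ℝ}

theorem HasD.d1 (h : HasD f z p q) : D1 f z = p := by
  rw [D1, h.fderiv]; simp

theorem HasD.d2 (h : HasD f z p q) : D2 f z = q := by
  rw [D2, h.fderiv]; simp

theorem hasD_of_diff (h : DifferentiableAt ℝ f z) : HasD f z (D1 f z) (D2 f z) := by
  have := h.hasFDerivAt
  exact HasFDerivAt.congr_fderiv this (by ext <;> simp [D1, D2])

theorem HasD.diff (h : HasD f z p q) : DifferentiableAt ℝ f z := HasFDerivAt.differentiableAt h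

theorem HasD.cast (h : HasD f z p q) {p' q' : ℝ} (hp : p = p') (hq : q = q') : HasD f z p' q' := by
  subst hp hq; exact h

theorem HasD.congr (h : HasD f z p q) (he : g =ᶠ[𝓝 z] f) : HasD g z p q :=
  HasFDerivAt.congr_of_eventuallyEq h he

theorem HasD.add (h : HasD f z p q) (h' : HasD g z r s) :
    HasD (fun w => f w + g w) z (p + r) (q + s) := by
  have := HasFDerivAt.add h h'
  exact HasFDerivAt.congr_fderiv this (by ext <;> simp)

theorem HasD.sub (h : HasD f z p q) (h' : HasD g z r s) :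
    HasD (fun w => f w - g w) z (p - r) (q - s) := by
  have := HasFDerivAt.sub h h'
  exact HasFDerivAt.congr_fderiv this (by ext <;> simp)

theorem HasD.neg (h : HasD f z p q) : HasD (fun w => -f w) z (-p) (-q) := by
  have := HasFDerivAt.neg h
  exact HasFDerivAt.congr_fderiv this (by ext <;> simp)

theorem HasD.mul (h : HasD f z p q) (h' : HasD g z r s) :
    HasD (fun w => f w * g w) z (p * g z + f z * r) (q * g z + f z * s) := by
  have := HasFDerivAt.mul h h'
  exact HasFDerivAt.congr_fderiv this (by ext <;> simp <;> ring)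

theorem HasD.fst {a : ℝ → ℝ} {a' : ℝ} (h : HasDerivAt a a' z.1) :
    HasD (fun w => a w.1) z a' 0 := by
  have h1 : HasFDerivAt (fun w : ℝ × ℝ => w.1) (ContinuousLinearMap.fst ℝ ℝ ℝ) z :=
    hasFDerivAt_fst
  have := h.comp_hasFDerivAt z h1
  exact HasFDerivAt.congr_fderiv this (by ext <;> simp)

theorem HasD.const (c : ℝ) : HasD (fun _ => c) z 0 0 := by
  have := hasFDerivAt_const (𝕜 := ℝ) c z
  exact HasFDerivAt.congr_fderiv this (by ext <;> simp)

/-- composition with `w ↦ (w.1, ϑ w)` -/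
theorem HasD.compP {th : ℝ × ℝ → ℝ} (h : HasD f (z.1, th z) p q) (h' : HasD th z r s) :
    HasD (fun w => f (w.1, th w)) z (p + q * r) (q * s) := by
  have h1 : HasFDerivAt (fun w : ℝ × ℝ => w.1) (ContinuousLinearMap.fst ℝ ℝ ℝ) z :=
    hasFDerivAt_fst
  have h2 : HasFDerivAt (fun w : ℝ × ℝ => (w.1, th w)) _ z := h1.prodMk h'
  have := HasFDerivAt.comp (f := fun w : ℝ × ℝ => (w.1, th w)) z (g := f) h h2
  exact HasFDerivAt.congr_fderiv this (by ext <;> simp)

theorem contDiffAt_D1 {n : WithTop ℕ∞} (h : ContDiffAt ℝ (n + 1) f z) : ContDiffAt ℝ n (D1 f) z := by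
  have := h.fderiv_right (m := n) le_rfl
  exact this.clm_apply contDiffAt_const

theorem contDiffAt_D2 {n : WithTop ℕ∞} (h : ContDiffAt ℝ (n + 1) f z) : ContDiffAt ℝ n (D2 f) z := by
  have := h.fderiv_right (m := n) le_rfl
  exact this.clm_apply contDiffAt_const

theorem D1_D2_comm (h : ContDiffAt ℝ 2 f z) : D1 (D2 f) z = D2 (D1 f) z := by
  have h1 : ContDiffAt ℝ 1 (fderiv ℝ f) z := h.fderiv_right (m := 1) (by norm_num)
  have h2 : DifferentiableAt ℝ (fderiv ℝ f) z := h1.differentiableAt (by norm_num)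
  have key : ∀ v w : ℝ × ℝ, fderiv ℝ (fun z => fderiv ℝ f z v) z w =
      fderiv ℝ (fderiv ℝ f) z w v := by
    intro v w
    have h3 := (h2.hasFDerivAt.clm_apply (hasFDerivAt_const v z)).fderiv
    rw [h3]
    simp
  have hs := h.isSymmSndFDerivAt (by simp)
  have e1 : D1 (D2 f) z = fderiv ℝ (fderiv ℝ f) z (1, 0) (0, 1) := key (0, 1) (1, 0)
  have e2 : D2 (D1 f) z = fderiv ℝ (fderiv ℝ f) z (0, 1) (1, 0) := key (1, 0) (0, 1)
  rw [e1, e2]
  exact hs.eq _ _

theorem diff_D1 (h : ContDiffAt ℝ 2 f z) : DifferentiableAt ℝ (D1 f) z :=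
  (contDiffAt_D1 (n := 1) (by exact_mod_cast h)).differentiableAt (by norm_num)

theorem diff_D2 (h : ContDiffAt ℝ 2 f z) : DifferentiableAt ℝ (D2 f) z :=
  (contDiffAt_D2 (n := 1) (by exact_mod_cast h)).differentiableAt (by norm_num)

end Pool.Agent.Helper52.PCap
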